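import Mathlib

set_option autoImplicit false

namespace Pool.Agent.Variants.MP_3db952_lc.NoUniversal

/-- The axis `X = {(x,0)}` of the plane. -/
def axisX : Set (ℝ × ℝ) := {p | p.2 = 0}

/-- The axis `Y = {(0,y)}` of the plane. -/
def axisY : Set (ℝ × ℝ) := {p | p.1 = 0}

/-- `π₁(S) = {(x,0) : ∃ y, (x,y) ∈ S}`. -/
def proj1 (S : Set (ℝ × ℝ)) : Set (ℝ × ℝ) := {p | p.2 = 0 ∧ ∃ y : ℝ, (p.1, y) ∈ S}

/-- `π₂(S) = {(0,y) : ∃ x, (x,y) ∈ S}`. -/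
def proj2 (S : Set (ℝ × ℝ)) : Set (ℝ × ℝ) := {p | p.1 = 0 ∧ ∃ x : ℝ, (x, p.2) ∈ S}

/-- The direct product `A ⊗ B = {(x,y) : (x,0) ∈ A, (0,y) ∈ B}`. -/
def box (A B : Set (ℝ × ℝ)) : Set (ℝ × ℝ) := {p | (p.1, (0 : ℝ)) ∈ A ∧ ((0 : ℝ), p.2) ∈ B}

/-- A projective algebra of plane sets: a family of subsets of the plane closed under finite
unions, finite intersections (the empty ones included), complement, both projections, and the
direct product of a member contained in `X` with a member contained in `Y`. -/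
structure IsProjAlg (𝒜 : Set (Set (ℝ × ℝ))) : Prop where
  empty_mem : (∅ : Set (ℝ × ℝ)) ∈ 𝒜
  univ_mem : (Set.univ : Set (ℝ × ℝ)) ∈ 𝒜
  union_mem : ∀ S ∈ 𝒜, ∀ T ∈ 𝒜, S ∪ T ∈ 𝒜
  inter_mem : ∀ S ∈ 𝒜, ∀ T ∈ 𝒜, S ∩ T ∈ 𝒜
  compl_mem : ∀ S ∈ 𝒜, Sᶜ ∈ 𝒜
  proj1_mem : ∀ S ∈ 𝒜, proj1 S ∈ 𝒜
  proj2_mem : ∀ S ∈ 𝒜, proj2 S ∈ 𝒜
  box_mem : ∀ A ∈ 𝒜, ∀ B ∈ 𝒜, A ⊆ axisX → B ⊆ axisY → box A B ∈ 𝒜

/-- `f` restricts to an isomorphism of projective algebras from `𝒜` onto `ℬ`: a bijection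
preserving the Boolean operations, both projections and the direct product. -/
structure IsIso (𝒜 ℬ : Set (Set (ℝ × ℝ))) (f : Set (ℝ × ℝ) → Set (ℝ × ℝ)) : Prop where
  bijOn : Set.BijOn f 𝒜 ℬ
  map_union : ∀ S ∈ 𝒜, ∀ T ∈ 𝒜, f (S ∪ T) = f S ∪ f T
  map_inter : ∀ S ∈ 𝒜, ∀ T ∈ 𝒜, f (S ∩ T) = f S ∩ f T
  map_compl : ∀ S ∈ 𝒜, f Sᶜ = (f S)ᶜ
  map_proj1 : ∀ S ∈ 𝒜, f (proj1 S) = proj1 (f S)
  map_proj2 : ∀ S ∈ 𝒜, f (proj2 S) = proj2 (f S)
  map_box : ∀ A ∈ 𝒜, ∀ B ∈ 𝒜, A ⊆ axisX → B ⊆ axisY → f (box A B) = box (f A) (f B)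

/-- One closure step. -/
def step (G : Set (Set (ℝ × ℝ))) : Set (Set (ℝ × ℝ)) :=
  G ∪ Set.image2 (fun S T => S ∪ T) G G ∪ Set.image2 (fun S T => S ∩ T) G G
    ∪ (fun S => Sᶜ) '' G ∪ proj1 '' G ∪ proj2 '' G ∪ Set.image2 box G G

/-- The iterated closure steps. -/
def chain (G : Set (Set (ℝ × ℝ))) : ℕ → Set (Set (ℝ × ℝ))
  | 0 => G
  | n + 1 => step (chain G n)

theorem step_countable {G : Set (Set (ℝ × ℝ))} (h : G.Countable) : (step G).Countable := by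
  unfold step
  exact (((((h.union (h.image2 h _)).union (h.image2 h _)).union (h.image _)).union
    (h.image _)).union (h.image _)).union (h.image2 h _)

theorem chain_countable {G : Set (Set (ℝ × ℝ))} (h : G.Countable) (n : ℕ) :
    (chain G n).Countable := by
  induction n with
  | zero => exact h
  | succ n ih => exact step_countable ih

theorem chain_mono (G : Set (Set (ℝ × ℝ))) : Monotone (chain G) := by
  refine monotone_nat_of_le_succ fun n => ?_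
  intro S hS
  simp only [chain, step, Set.mem_union]
  exact Or.inl (Or.inl (Or.inl (Or.inl (Or.inl (Or.inl hS)))))

/-- Every countable family of plane sets lies in a countable projective algebra. -/
theorem exists_projAlg {G : Set (Set (ℝ × ℝ))} (h : G.Countable) :
    ∃ 𝒜 : Set (Set (ℝ × ℝ)), IsProjAlg 𝒜 ∧ 𝒜.Countable ∧ G ⊆ 𝒜 := by
  let G' : Set (Set (ℝ × ℝ)) := insert ∅ (insert Set.univ G)
  have hG' : G'.Countable := (h.insert _).insert _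
  have two : ∀ S ∈ ⋃ n, chain G' n, ∀ T ∈ ⋃ n, chain G' n,
      ∃ n, S ∈ chain G' n ∧ T ∈ chain G' n := by
    intro S hS T hT
    obtain ⟨m, hm⟩ := Set.mem_iUnion.1 hS
    obtain ⟨n, hn⟩ := Set.mem_iUnion.1 hT
    exact ⟨max m n, chain_mono G' (le_max_left m n) hm, chain_mono G' (le_max_right m n) hn⟩
  refine ⟨⋃ n, chain G' n, ⟨?_, ?_, ?_, ?_, ?_, ?_, ?_, ?_⟩,
    Set.countable_iUnion (chain_countable hG'), ?_⟩
  · exact Set.mem_iUnion.2 ⟨0, by simp [chain, G']⟩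
  · exact Set.mem_iUnion.2 ⟨0, by simp [chain, G']⟩
  · intro S hS T hT
    obtain ⟨n, h1, h2⟩ := two S hS T hT
    refine Set.mem_iUnion.2 ⟨n + 1, ?_⟩
    simp only [chain, step, Set.mem_union]
    exact Or.inl (Or.inl (Or.inl (Or.inl (Or.inl (Or.inr (Set.mem_image2_of_mem h1 h2))))))
  · intro S hS T hT
    obtain ⟨n, h1, h2⟩ := two S hS T hT
    refine Set.mem_iUnion.2 ⟨n + 1, ?_⟩
    simp only [chain, step, Set.mem_union]
    exact Or.inl (Or.inl (Or.inl (Or.inl (Or.inr (Set.mem_image2_of_mem h1 h2)))))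
  · intro S hS
    obtain ⟨n, h1⟩ := Set.mem_iUnion.1 hS
    refine Set.mem_iUnion.2 ⟨n + 1, ?_⟩
    simp only [chain, step, Set.mem_union]
    exact Or.inl (Or.inl (Or.inl (Or.inr (Set.mem_image_of_mem _ h1))))
  · intro S hS
    obtain ⟨n, h1⟩ := Set.mem_iUnion.1 hS
    refine Set.mem_iUnion.2 ⟨n + 1, ?_⟩
    simp only [chain, step, Set.mem_union]
    exact Or.inl (Or.inl (Or.inr (Set.mem_image_of_mem _ h1)))
  · intro S hS
    obtain ⟨n, h1⟩ := Set.mem_iUnion.1 hS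
    refine Set.mem_iUnion.2 ⟨n + 1, ?_⟩
    simp only [chain, step, Set.mem_union]
    exact Or.inl (Or.inr (Set.mem_image_of_mem _ h1))
  · intro S hS T hT _ _
    obtain ⟨n, h1, h2⟩ := two S hS T hT
    refine Set.mem_iUnion.2 ⟨n + 1, ?_⟩
    simp only [chain, step, Set.mem_union]
    exact Or.inr (Set.mem_image2_of_mem h1 h2)
  · intro S hS
    exact Set.mem_iUnion.2 ⟨0, by simp [chain, G', hS]⟩

/-- The walk along the `X` axis driven by two plane sets. -/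
def walk (D T : Set (ℝ × ℝ)) : ℕ → Set (ℝ × ℝ)
  | 0 => proj1 (proj2 Set.univ)
  | n + 1 => proj1 (D ∩ box (proj1 Set.univ) (proj2 (T ∩ box (walk D T n) (proj2 Set.univ))))

/-- The set of natural numbers read off from three plane sets. -/
def code (D T W : Set (ℝ × ℝ)) : Set ℕ := {n | walk D T n ∩ W ≠ ∅}

theorem proj1_subset (S : Set (ℝ × ℝ)) : proj1 S ⊆ axisX := fun _ hp => hp.1

theorem proj2_subset (S : Set (ℝ × ℝ)) : proj2 S ⊆ axisY := fun _ hp => hp.1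

theorem walk_subset (D T : Set (ℝ × ℝ)) (n : ℕ) : walk D T n ⊆ axisX := by
  cases n <;> exact proj1_subset _

theorem walk_mem {𝒜 : Set (Set (ℝ × ℝ))} (h : IsProjAlg 𝒜) {D T : Set (ℝ × ℝ)}
    (hD : D ∈ 𝒜) (hT : T ∈ 𝒜) (n : ℕ) : walk D T n ∈ 𝒜 := by
  induction n with
  | zero => exact h.proj1_mem _ (h.proj2_mem _ h.univ_mem)
  | succ n ih =>
    refine h.proj1_mem _ (h.inter_mem _ hD _ (h.box_mem _ (h.proj1_mem _ h.univ_mem) _
      (h.proj2_mem _ (h.inter_mem _ hT _ (h.box_mem _ ih _ (h.proj2_mem _ h.univ_mem)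
        (walk_subset D T n) (proj2_subset _)))) (proj1_subset _) (proj2_subset _)))

theorem map_empty {𝒜 ℬ : Set (Set (ℝ × ℝ))} {f : Set (ℝ × ℝ) → Set (ℝ × ℝ)}
    (h : IsProjAlg 𝒜) (hf : IsIso 𝒜 ℬ f) : f ∅ = ∅ := by
  have h1 := hf.map_inter ∅ h.empty_mem (∅ : Set (ℝ × ℝ))ᶜ (h.compl_mem _ h.empty_mem)
  rw [hf.map_compl _ h.empty_mem, Set.inter_compl_self, Set.inter_compl_self] at h1
  exact h1

theorem map_univ {𝒜 ℬ : Set (Set (ℝ × ℝ))} {f : Set (ℝ × ℝ) → Set (ℝ × ℝ)}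
    (h : IsProjAlg 𝒜) (hf : IsIso 𝒜 ℬ f) : f Set.univ = Set.univ := by
  have h1 := hf.map_compl ∅ h.empty_mem
  rw [map_empty h hf, Set.compl_empty] at h1
  exact h1

theorem map_walk {𝒜 ℬ : Set (Set (ℝ × ℝ))} {f : Set (ℝ × ℝ) → Set (ℝ × ℝ)}
    (h : IsProjAlg 𝒜) (hf : IsIso 𝒜 ℬ f) {D T : Set (ℝ × ℝ)}
    (hD : D ∈ 𝒜) (hT : T ∈ 𝒜) (n : ℕ) : f (walk D T n) = walk (f D) (f T) n := by
  have hX := h.proj1_mem _ h.univ_mem
  have hY := h.proj2_mem _ h.univ_mem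
  have fX : f (proj1 Set.univ) = proj1 Set.univ := by
    rw [hf.map_proj1 _ h.univ_mem, map_univ h hf]
  have fY : f (proj2 Set.univ) = proj2 Set.univ := by
    rw [hf.map_proj2 _ h.univ_mem, map_univ h hf]
  induction n with
  | zero =>
    simp only [walk]
    rw [hf.map_proj1 _ hY, fY]
  | succ n ih =>
    have h1 := walk_mem h hD hT n
    have h2 := h.box_mem _ h1 _ hY (walk_subset D T n) (proj2_subset _)
    have h3 := h.inter_mem _ hT _ h2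
    have h4 := h.proj2_mem _ h3
    have h5 := h.box_mem _ hX _ h4 (proj1_subset _) (proj2_subset _)
    have h6 := h.inter_mem _ hD _ h5
    simp only [walk]
    rw [hf.map_proj1 _ h6, hf.map_inter _ hD _ h5,
      hf.map_box _ hX _ h4 (proj1_subset _) (proj2_subset _), fX, hf.map_proj2 _ h3,
      hf.map_inter _ hT _ h2, hf.map_box _ h1 _ hY (walk_subset D T n) (proj2_subset _), ih, fY]

theorem map_code {𝒜 ℬ : Set (Set (ℝ × ℝ))} {f : Set (ℝ × ℝ) → Set (ℝ × ℝ)}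
    (h : IsProjAlg 𝒜) (hf : IsIso 𝒜 ℬ f) {D T W : Set (ℝ × ℝ)}
    (hD : D ∈ 𝒜) (hT : T ∈ 𝒜) (hW : W ∈ 𝒜) : code (f D) (f T) (f W) = code D T W := by
  ext n
  have h1 := walk_mem h hD hT n
  have h2 := h.inter_mem _ h1 _ hW
  simp only [code, Set.mem_ofPred_eq]
  rw [← map_walk h hf hD hT n, ← hf.map_inter _ h1 _ hW]
  constructor
  · intro hne he
    exact hne (by rw [he, map_empty h hf])
  · intro hne he
    exact hne (hf.bijOn.injOn h2 h.empty_mem (by rw [he, map_empty h hf]))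

theorem walk_std (n : ℕ) :
    walk {p : ℝ × ℝ | p.1 = p.2} {p : ℝ × ℝ | p.2 = p.1 + 1} n = {((n : ℝ), (0 : ℝ))} := by
  induction n with
  | zero =>
    ext ⟨x, y⟩
    simp [walk, proj1, proj2, and_comm]
  | succ n ih =>
    ext ⟨x, y⟩
    simp only [walk, ih]
    simp only [proj1, proj2, box, Set.mem_ofPred_eq, Set.mem_inter_iff, Set.mem_singleton_iff,
      Prod.mk.injEq, Set.mem_univ, Nat.cast_add, Nat.cast_one]
    constructor
    · rintro ⟨hy, y', hxy, -, -, x', h1, h2, -⟩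
      refine ⟨?_, hy⟩
      rw [hxy, h1, h2.1]
    · rintro ⟨hx, hy⟩
      exact ⟨hy, x, rfl, ⟨trivial, 0, trivial⟩, trivial, (n : ℝ), hx, ⟨rfl, trivial⟩, trivial,
        0, trivial⟩

theorem code_std (a : Set ℕ) :
    code {p : ℝ × ℝ | p.1 = p.2} {p : ℝ × ℝ | p.2 = p.1 + 1}
      {p : ℝ × ℝ | ∃ n ∈ a, p = ((n : ℝ), (0 : ℝ))} = a := by
  ext n
  simp only [code, Set.mem_ofPred_eq, walk_std]
  rw [← Set.nonempty_iff_ne_empty]
  constructor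
  · rintro ⟨p, hp, m, hm, hpm⟩
    rw [Set.mem_singleton_iff] at hp
    have : (n : ℝ) = (m : ℝ) := by
      have := hp.symm.trans hpm
      exact (Prod.mk.inj this).1
    rwa [Nat.cast_inj.1 this]
  · intro hn
    exact ⟨_, rfl, n, hn, rfl⟩

/-- There is no universal countable projective algebra of plane sets: for every countable
projective algebra `𝒰` some countable projective algebra is isomorphic to no subalgebra of `𝒰`. -/
theorem result :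
    ∀ 𝒰 : Set (Set (ℝ × ℝ)), IsProjAlg 𝒰 → 𝒰.Countable →
      ∃ 𝒜 : Set (Set (ℝ × ℝ)), IsProjAlg 𝒜 ∧ 𝒜.Countable ∧
        ¬ ∃ ℬ : Set (Set (ℝ × ℝ)), ℬ ⊆ 𝒰 ∧ IsProjAlg ℬ ∧
          ∃ f : Set (ℝ × ℝ) → Set (ℝ × ℝ), IsIso 𝒜 ℬ f := by
  intro 𝒰 _ hU
  have hc : ((fun t : Set (ℝ × ℝ) × Set (ℝ × ℝ) × Set (ℝ × ℝ) => code t.1 t.2.1 t.2.2) ''
      (𝒰 ×ˢ 𝒰 ×ˢ 𝒰)).Countable := (hU.prod (hU.prod hU)).image _
  have hne : ((fun t : Set (ℝ × ℝ) × Set (ℝ × ℝ) × Set (ℝ × ℝ) => code t.1 t.2.1 t.2.2) ''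
      (𝒰 ×ˢ 𝒰 ×ˢ 𝒰)) ≠ Set.univ := by
    intro he
    rw [he] at hc
    have : Countable (Set ℕ) := Set.countable_univ_iff.1 hc
    obtain ⟨g, hg⟩ := exists_surjective_nat (Set ℕ)
    exact Function.cantor_surjective g hg
  obtain ⟨a, ha⟩ := (Set.ne_univ_iff_exists_notMem _).1 hne
  let D : Set (ℝ × ℝ) := {p : ℝ × ℝ | p.1 = p.2}
  let T : Set (ℝ × ℝ) := {p : ℝ × ℝ | p.2 = p.1 + 1}
  let W : Set (ℝ × ℝ) := {p : ℝ × ℝ | ∃ n ∈ a, p = ((n : ℝ), (0 : ℝ))}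
  obtain ⟨𝒜, hA, hAc, hsub⟩ := exists_projAlg (G := {D, T, W}) (Set.toFinite _).countable
  have hD : D ∈ 𝒜 := hsub (by simp)
  have hT : T ∈ 𝒜 := hsub (by simp)
  have hW : W ∈ 𝒜 := hsub (by simp)
  refine ⟨𝒜, hA, hAc, ?_⟩
  rintro ⟨ℬ, hBU, -, f, hf⟩
  apply ha
  refine ⟨(f D, f T, f W), ⟨hBU (hf.bijOn.mapsTo hD), hBU (hf.bijOn.mapsTo hT),
    hBU (hf.bijOn.mapsTo hW)⟩, ?_⟩
  change code (f D) (f T) (f W) = a
  rw [map_code hA hf hD hT hW]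
  exact code_std a

end Pool.Agent.Variants.MP_3db952_lc.NoUniversal
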